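import Pool.Agent.W387.Q.Hyp
import Pool.Agent.TH303.LTwo

/-!
Mean area of square-lattice self-avoiding polygons: `|A_{n+1}/A_n - 1| ≤ K (log n) / n^(1/2)`, and
reduction of `A_n ~ c n^(3/2)` to sparse sequences.
-/

namespace Pool.Agent.Results.MP_2250b1_co.ConsecutiveMeansLogTwo

open Filter Topology

/-- a closed nearest-neighbour loop on `ℤ²` with `m` steps, rooted at the origin and oriented,
that visits no vertex twice -/
def IsLoop (m : ℕ) (f : ZMod m → ℤ × ℤ) : Prop :=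
  f 0 = 0 ∧ Function.Injective f ∧
    ∀ i : ZMod m, |(f (i + 1)).1 - (f i).1| + |(f (i + 1)).2 - (f i).2| = 1

/-- the edge from `f k` to `f (k+1)` is horizontal, joins the columns `x = a` and `x = a + 1`, and
has height larger than `b`: it lies above the unit cell `[a, a+1] × [b, b+1]` -/
def Above (m : ℕ) (f : ZMod m → ℤ × ℤ) (a b : ℤ) (k : ZMod m) : Prop :=
  (((f k).1 = a ∧ (f (k + 1)).1 = a + 1) ∨ ((f k).1 = a + 1 ∧ (f (k + 1)).1 = a)) ∧ b < (f k).2

/-- the unit cell `[a, a+1] × [b, b+1]` is enclosed by the loop: the vertical ray from the cell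
upwards crosses an odd number of edges -/
def Encl (m : ℕ) (f : ZMod m → ℤ × ℤ) (c : ℤ × ℤ) : Prop :=
  Odd (Nat.card {k : ZMod m // Above m f c.1 c.2 k})

/-- the area: the number of unit cells enclosed by the loop -/
noncomputable def area (m : ℕ) (f : ZMod m → ℤ × ℤ) : ℕ := Nat.card {c : ℤ × ℤ // Encl m f c}

/-- the mean area `A_n` of the self-avoiding polygons of perimeter `2 n`: the average of the
area over the rooted oriented polygons. -/
noncomputable def A (n : ℕ) : ℝ :=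
  (∑ᶠ f ∈ {f : ZMod (2 * n) → ℤ × ℤ | IsLoop (2 * n) f}, (area (2 * n) f : ℝ)) /
    ({f : ZMod (2 * n) → ℤ × ℤ | IsLoop (2 * n) f}.ncard : ℝ)

/-- **Theorem.** (1) There is `K` with `|A_{n+1}/A_n - 1| ≤ K (log n) / n^(1/2)` for all `n ≥ 2`.
(2) Let `s_k → ∞` be a sequence of integers with `(s_{k+1} - s_k) (log s_k) / s_k^(1/2) → 0`, let
`θ` be real and `c > 0`.  If `A_n / n^θ → c` along `n = s_k`, then along all `n`. -/
theorem result : (∃ K : ℝ, ∀ n : ℕ, 2 ≤ n →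
      |A (n + 1) / A n - 1| ≤ K * (Real.log n / Real.sqrt n)) ∧
    ∀ (s : ℕ → ℕ) (θ c : ℝ), Tendsto s atTop atTop →
      Tendsto (fun k => ((s (k + 1) : ℝ) - s k) * (Real.log (s k) / Real.sqrt (s k)))
        atTop (𝓝 0) →
      0 < c →
      Tendsto (fun k => A (s k) / (s k : ℝ) ^ θ) atTop (𝓝 c) →
      Tendsto (fun n : ℕ => A n / (n : ℝ) ^ θ) atTop (𝓝 c) := by
  refine ⟨Pool.Agent.TH303.LTwo.rate Pool.Agent.W387.Q.f2, fun s θ c hs hgap' hc0 hc => ?_⟩
  have hgap := Pool.Agent.TH303.LTwo.gap s hs hgap'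
  have hpos : ∀ n : ℕ, 2 ≤ n → 0 < A n := fun n hn => Pool.Agent.H739K.MA_pos hn
  obtain ⟨K', -, hK'⟩ := Pool.Agent.W387.Q.ratio_pow (fun n => A n) hpos
    Pool.Agent.W387.Q.f2 (-θ)
  have hdiv : ∀ n : ℕ, A n / (n : ℝ) ^ θ = A n * (n : ℝ) ^ (-θ) := fun n => by
    rw [Real.rpow_neg (Nat.cast_nonneg n), div_eq_mul_inv]
  simp only [hdiv] at hc ⊢
  refine Pool.Agent.W387.Q.mul_gen (fun n => A n * (n : ℝ) ^ (-θ)) K' ?_ hK' s hs hgap c hc0 hc
  intro n hn
  have hn0 : (0 : ℝ) < n := by exact_mod_cast (by omega : 0 < n)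
  exact mul_pos (hpos n hn) (Real.rpow_pos_of_pos hn0 _)

end Pool.Agent.Results.MP_2250b1_co.ConsecutiveMeansLogTwo
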